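import Pool.Agent.H73.G.R8.W480.TC.Stm
import Pool.Agent.H73.G.R8.W646.MT.LAT

set_option autoImplicit false

/-! Project TC, part JL: the `j`-invariants of lattices form an uncountable set. -/

open Set Filter Topology

namespace Pool.Agent.W64.TC

open Pool.Agent.W480.TC Pool.Agent.W646.MT

lemma exists_lattice (a : ℝ) (h0 : 0 < a) (h1 : a < 1728) : ∃ L : PeriodPair, jInv L = a := by
  have hle : (1 / 2 : ℝ) ≤ √3 / 2 := by
    have : (1 : ℝ) ≤ √3 := by
      rw [Real.one_le_sqrt]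
      norm_num
    linarith
  have hc4 := G_cont 4 (by norm_num)
  have hc6 := G_cont 6 (by norm_num)
  have hg2 : ContinuousOn g2f (Icc (1 / 2) (√3 / 2)) :=
    (Complex.continuous_re.comp_continuousOn hc4).const_mul 60
  have hg3 : ContinuousOn g3f (Icc (1 / 2) (√3 / 2)) :=
    (Complex.continuous_re.comp_continuousOn hc6).const_mul 140
  have hφ : ContinuousOn (fun t => (1728 - a) * g2f t ^ 3 + 27 * a * g3f t ^ 2)
      (Icc (1 / 2) (√3 / 2)) := by
    fun_prop
  have e1 : g2f (1 / 2) < 0 := by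
    have h := G4_half
    rw [G_eq] at h
    unfold g2f
    linarith
  have e2 : g3f (1 / 2) = 0 := by
    have h := G6_half
    rw [G_eq] at h
    unfold g3f
    rw [h]
    simp
  have e3 : g2f (√3 / 2) = 0 := by
    have h := G4_hex
    rw [G_eq] at h
    unfold g2f
    rw [h]
    simp
  have h5 := intermediate_value_Icc hle hφ
  have h6 : (0 : ℝ) ∈ Icc ((1728 - a) * g2f (1 / 2) ^ 3 + 27 * a * g3f (1 / 2) ^ 2)
      ((1728 - a) * g2f (√3 / 2) ^ 3 + 27 * a * g3f (√3 / 2) ^ 2) := by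
    rw [e2, e3]
    constructor
    · have h8 : g2f (1 / 2) ^ 3 < 0 := by
        have h7 := mul_pos_of_neg_of_neg e1 e1
        have e : g2f (1 / 2) ^ 3 = g2f (1 / 2) * g2f (1 / 2) * g2f (1 / 2) := by ring
        rw [e]
        exact mul_neg_of_pos_of_neg h7 e1
      have h9 : 0 < 1728 - a := by linarith
      have h10 := mul_neg_of_pos_of_neg h9 h8
      linarith
    · positivity
  obtain ⟨t, ht, hφt⟩ := h5 h6
  have ht0 : t ≠ 0 := by
    have := ht.1
    intro h
    rw [h] at this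
    norm_num at this
  refine ⟨La t ht0, ?_⟩
  have hφt' : (1728 - a) * g2f t ^ 3 + 27 * a * g3f t ^ 2 = 0 := hφt
  have hD : g2f t ^ 3 - 27 * g3f t ^ 2 ≠ 0 := by
    intro hD
    have h2 : g2f t ^ 3 = 0 := by nlinarith
    have h3 : g2f t = 0 := pow_eq_zero_iff (by norm_num) |>.1 h2
    have h4 : g3f t ^ 2 = 0 := by linarith
    have h5 : g3f t = 0 := pow_eq_zero_iff (by norm_num) |>.1 h4
    apply not_both (La_halves (t := t) (ht := ht0))
    rw [g2_eq, g3_eq, h3, h5]
    simp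
  have hDc : ((g2f t : ℂ) ^ 3 - 27 * (g3f t : ℂ) ^ 2) ≠ 0 := by
    exact_mod_cast hD
  rw [jInv, g2_eq, g3_eq, div_eq_iff hDc]
  have h2 : 1728 * g2f t ^ 3 = a * (g2f t ^ 3 - 27 * g3f t ^ 2) := by linarith
  exact_mod_cast h2

end Pool.Agent.W64.TC
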